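import Pool.Agent.H90.DeltaWye.Build

/-!
# Intersection numbers do not determine the Delta-Wye parameters

There are two exactly triply regular symmetric association schemes with three classes on `16`
points which have the same intersection numbers but different Delta-Wye parameters: a scheme on
`Z_2^4` whose first graph is the `4 × 4` rook graph, and a scheme on `Z_4 × Z_4` whose first graph
is the Shrikhande graph.
-/

set_option autoImplicit false

open Finset Matrix Pool.Agent.H90.DeltaWye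

namespace Pool.Agent.Results.MP_711634_co.DeltaWyeDiffer

theorem result : ∃ (S S' : Scheme (Fin 16) 3) (E E' : Fin 4 → Matrix (Fin 16) (Fin 16) ℝ)
    (q : Fin 4 → Fin 4 → Fin 4 → ℝ),
    S.ExactlyTriplyRegular ∧ S'.ExactlyTriplyRegular ∧
    S.p = S'.p ∧
    S.IsPrimitiveIdempotents E ∧ S'.IsPrimitiveIdempotents E' ∧
    (∃ c : Fin 4 → Fin 4 → ℝ, ∀ r, E r = ∑ i, c r i • S.A i ∧ E' r = ∑ i, c r i • S'.A i) ∧
    S.IsKrein E q ∧ S'.IsKrein E' q ∧
    0 < S.p 1 1 1 ∧ 0 < q 1 1 1 ∧
    (∃ σ, S.IsDeltaWye E q σ) ∧ (∀ σ, S.IsDeltaWye E q σ → σ 1 1 1 1 1 1 = 8) ∧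
    (∃ σ', S'.IsDeltaWye E' q σ') ∧ (∀ σ', S'.IsDeltaWye E' q σ' → σ' 1 1 1 1 1 1 = 4) := by
  have hA := tri_eq relA addA relA_add addA_inj addA_zero
    (fun i j k => tri relA 0 (fst (repA i j k)) (snd (repA i j k))) triA_zero
  have hB := tri_eq relB addB relB_add addB_inj addB_zero
    (fun i j k => tri relB 0 (fst (repB i j k)) (snd (repB i j k))) triB_zero
  obtain ⟨a1, a2⟩ := etr relA relA_zero relA_comm relA_nonempty relA_card
    (fun i j k => tri relA 0 (fst (repA i j k)) (snd (repA i j k))) hA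
  obtain ⟨b1, b2⟩ := etr relB relB_zero relB_comm relB_nonempty relB_card
    (fun i j k => tri relB 0 (fst (repB i j k)) (snd (repB i j k))) hB
  have hp : pp 1 1 1 = 2 := by decide +kernel
  refine ⟨mkS relA relA_zero relA_comm relA_nonempty relA_card,
    mkS relB relB_zero relB_comm relB_nonempty relB_card, Em relA, Em relB, qq, a1, b1, rfl,
    Em_idem _ _ _ _ _, Em_idem _ _ _ _ _,
    ⟨fun r i => (Qz r i : ℝ) / 16, fun r => ⟨Em_eq _ _ _ _ _ r, Em_eq _ _ _ _ _ r⟩⟩,
    Em_krein _ _ _ _ _, Em_krein _ _ _ _ _, ?_, ?_, a2, ?_, b2, ?_⟩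
  · show 0 < pp 1 1 1
    rw [hp]
    norm_num
  · simp [qq, hp]
  · intro σ hσ
    rw [sigma_val relA relA_zero relA_comm relA_nonempty relA_card hσ sumA]
    norm_num
  · intro σ hσ
    rw [sigma_val relB relB_zero relB_comm relB_nonempty relB_card hσ sumB]
    norm_num

end Pool.Agent.Results.MP_711634_co.DeltaWyeDiffer
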